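import Pool.Agent.Q33.Harm.Choose

/-! `∑_{k<p} C(a,k) C(-1-a,k)/(2k+1)` modulo `p^2` for `a = -1/3`. -/

namespace Pool.Agent.Q33.Cat2

open Finset Q33.Harm

variable {p : ℕ} [hp : Fact p.Prime]

/-- `C(a,k) C(-1-a,k)` for `k < p` -/
noncomputable def c (p : ℕ) [Fact p.Prime] (a : ℤ_[p]) (k : ℕ) : ℤ_[p] :=
  ∏ j ∈ range k, (((j : ℤ_[p]) - a) * ((j : ℤ_[p]) + 1 + a) * v p (j + 1) ^ 2)

/-- `C(a,k) C(-a,k)` for `k < p` -/
noncomputable def d (p : ℕ) [Fact p.Prime] (a : ℤ_[p]) (k : ℕ) : ℤ_[p] :=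
  ∏ j ∈ range k, (((j : ℤ_[p]) - a) * ((j : ℤ_[p]) + a) * v p (j + 1) ^ 2)

theorem c_succ (a : ℤ_[p]) (k : ℕ) :
    c p a (k + 1) = c p a k * (((k : ℤ_[p]) - a) * ((k : ℤ_[p]) + 1 + a) * v p (k + 1) ^ 2) := by
  unfold c
  rw [prod_range_succ]

theorem d_succ (a : ℤ_[p]) (k : ℕ) :
    d p a (k + 1) = d p a k * (((k : ℤ_[p]) - a) * ((k : ℤ_[p]) + a) * v p (k + 1) ^ 2) := by
  unfold d
  rw [prod_range_succ]

theorem a_c (a : ℤ_[p]) (k : ℕ) : a * c p a k = d p a k * (a + k) := by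
  induction k with
  | zero => simp [c, d]
  | succ k ih =>
    rw [c_succ, d_succ]
    push_cast
    linear_combination (((k : ℤ_[p]) - a) * ((k : ℤ_[p]) + 1 + a) * v p (k + 1) ^ 2) * ih

theorem a_c' (a : ℤ_[p]) (k : ℕ) : a * c p (a - 1) k = d p a k * (a - k) := by
  induction k with
  | zero => simp [c, d]
  | succ k ih =>
    rw [c_succ, d_succ]
    push_cast
    linear_combination (((k : ℤ_[p]) - (a - 1)) * ((k : ℤ_[p]) + 1 + (a - 1)) * v p (k + 1) ^ 2) * ih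

theorem c_rec {a : ℤ_[p]} (ha : a ≠ 0) (k : ℕ) :
    (2 * a + 1) * c p a k - (2 * a - 1) * c p (a - 1) k = 2 * (2 * k + 1) * d p a k := by
  apply mul_left_cancel₀ ha
  linear_combination (2 * a + 1) * a_c a k - (2 * a - 1) * a_c' a k

theorem sum_d (a : ℤ_[p]) (m : ℕ) (hm : m < p) :
    ∑ k ∈ range (m + 1), d p a k = ∏ j ∈ range m, (((j : ℤ_[p]) + 1) ^ 2 - a ^ 2) * v p (j + 1) ^ 2 := by
  have key : ∀ m, m < p → ∑ k ∈ range (m + 1), d p a k = ∏ j ∈ range m, (((j : ℤ_[p]) + 1) ^ 2 - a ^ 2) * v p (j + 1) ^ 2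
      ∧ d p a (m + 1) = -(a ^ 2) * v p (m + 1) ^ 2 * ∏ j ∈ range m, (((j : ℤ_[p]) + 1) ^ 2 - a ^ 2) * v p (j + 1) ^ 2 := by
    intro m
    induction m with
    | zero =>
      intro _
      refine ⟨by simp [d], ?_⟩
      rw [d_succ]
      simp only [d, range_zero, prod_empty]
      push_cast
      ring
    | succ m ih =>
      intro hm
      obtain ⟨h1, h2⟩ := ih (by omega)
      have hv := mul_v_of_mem (p := p) (j := m + 1) (by rw [mem_Ico]; omega)
      refine ⟨?_, ?_⟩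
      · rw [sum_range_succ, h1, h2, prod_range_succ]
        push_cast at hv
        linear_combination (-(∏ j ∈ range m, (((j : ℤ_[p]) + 1) ^ 2 - a ^ 2) * v p (j + 1) ^ 2)
          * (((m : ℤ_[p]) + 1) * v p (m + 1) + 1)) * hv
      · rw [d_succ, h2, prod_range_succ]
        push_cast
        ring
  exact (key m hm).1

variable (p) in
/-- `u_k = p/(2k+1)` -/
noncomputable def u (k : ℕ) : ℤ_[p] := if 2 * k + 1 = p then 1 else p * v p (2 * k + 1)

theorem not_dvd {k : ℕ} (hk : k < p) (h : 2 * k + 1 ≠ p) : ¬ p ∣ 2 * k + 1 := by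
  rintro ⟨m, hm⟩
  have h2 := hp.out.pos
  rcases m with _ | _ | m
  · omega
  · omega
  · have : p * (m + 1 + 1) = p * m + 2 * p := by ring
    omega

theorem u_mul {k : ℕ} (hk : k < p) : (2 * (k : ℤ_[p]) + 1) * u p k = p := by
  unfold u
  split_ifs with h
  · rw [mul_one]
    exact_mod_cast congrArg (fun n : ℕ => (n : ℤ_[p])) h
  · have := mul_v (p := p) (not_dvd hk h)
    push_cast at this
    linear_combination (p : ℤ_[p]) * this

variable (p) in
/-- `P(a) = p ∑ C(a,k) C(-1-a,k)/(2k+1)` -/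
noncomputable def P (a : ℤ_[p]) : ℤ_[p] := ∑ k ∈ range p, c p a k * u p k

theorem P_rec {a : ℤ_[p]} (ha : a ≠ 0) :
    (2 * a + 1) * P p a - (2 * a - 1) * P p (a - 1) = 2 * p * ∑ k ∈ range p, d p a k := by
  unfold P
  rw [mul_sum, mul_sum, mul_sum, ← sum_sub_distrib]
  refine sum_congr rfl fun k hk => ?_
  rw [mem_range] at hk
  have h1 := c_rec ha k
  have h2 := u_mul (p := p) hk
  linear_combination u p k * h1 + 2 * d p a k * h2

theorem Q_dvd (h2 : p ≠ 2) (t : ℤ_[p]) {i : ℕ} (hi : 1 ≤ i) (hip : i < p) :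
    (p : ℤ_[p]) ^ 2 ∣ ∑ k ∈ range p, d p (p * t + i) k := by
  have hpos := hp.out.pos
  have h1 := sum_d (p := p) (p * t + i) (p - 1) (by omega)
  rw [show p - 1 + 1 = p by omega] at h1
  rw [h1]
  have hodd := hp.out.eq_two_or_odd
  -- the factors `j + 1 = i` and `j + 1 = p - i`
  have hsub : ({i - 1, p - i - 1} : Finset ℕ) ⊆ range (p - 1) := by
    intro j hj
    rw [mem_insert, mem_singleton] at hj
    rw [mem_range]
    omega
  have h3 := prod_sdiff (f := fun (j : ℕ) => (((j : ℤ_[p]) + 1) ^ 2 - (p * t + i) ^ 2) * v p (j + 1) ^ 2) hsub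
  rw [← h3]
  apply Dvd.dvd.mul_left
  rw [prod_pair (by omega), sq]
  apply mul_dvd_mul
  · have e : ((i - 1 : ℕ) : ℤ_[p]) + 1 = i := by
      have : i - 1 + 1 = i := by omega
      exact_mod_cast congrArg (fun n : ℕ => (n : ℤ_[p])) this
    rw [e]
    exact ⟨-t * (2 * i + p * t) * v p (i - 1 + 1) ^ 2, by ring⟩
  · have e : ((p - i - 1 : ℕ) : ℤ_[p]) + 1 = p - i := by
      have h4 : ((p - i - 1 : ℕ) : ℤ_[p]) + 1 + i = p := by
        have : p - i - 1 + 1 + i = p := by omega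
        exact_mod_cast congrArg (fun n : ℕ => (n : ℤ_[p])) this
      linear_combination h4
    rw [e]
    exact ⟨(1 + t) * (p - 2 * i - p * t) * v p (p - i - 1 + 1) ^ 2, by ring⟩

theorem path (h2 : p ≠ 2) (t : ℤ_[p]) {n : ℕ} (hn : n < p) :
    (p : ℤ_[p]) ^ 3 ∣ (2 * (p * t + n) + 1) * P p (p * t + n) - (2 * (p * t) + 1) * P p (p * t) := by
  induction n with
  | zero => simp
  | succ n ih =>
    have h1 := ih (by omega)
    have hne : (p * t + ((n + 1 : ℕ) : ℤ_[p])) ≠ 0 := by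
      intro h0
      have h3 : (p : ℤ_[p]) ∣ ((n + 1 : ℕ) : ℤ_[p]) := ⟨-t, by linear_combination h0⟩
      have h4 : IsUnit ((n + 1 : ℕ) : ℤ_[p]) := isUnit_nat (not_dvd_of_lt (Nat.succ_pos n) hn)
      exact PadicInt.prime_p.not_isUnit (isUnit_of_dvd_unit h3 h4)
    have h3 := P_rec (p := p) hne
    obtain ⟨q, hq⟩ := Q_dvd (p := p) h2 t (Nat.succ_pos n) hn
    rw [hq] at h3
    have e : (p * t + ((n + 1 : ℕ) : ℤ_[p])) - 1 = p * t + n := by push_cast; ring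
    rw [e] at h3
    obtain ⟨r, hr⟩ := h1
    refine ⟨2 * q + r, ?_⟩
    push_cast at h3 ⊢
    linear_combination h3 + hr

theorem c_pt (t : ℤ_[p]) {k : ℕ} (hk : 1 ≤ k) (hkp : k < p) :
    (p : ℤ_[p]) ^ 3 ∣ c p (p * t) k + p * t * (v p k + p * t * v p k ^ 2) := by
  induction k, hk using Nat.le_induction with
  | base =>
    have h1 := mul_v_of_mem (p := p) (j := 1) (by rw [mem_Ico]; omega)
    push_cast at h1
    rw [one_mul] at h1
    rw [show (1 : ℕ) = 0 + 1 from rfl, c_succ]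
    simp only [c, range_zero, prod_empty, zero_add]
    rw [h1]
    refine ⟨0, ?_⟩
    push_cast
    ring
  | succ k hk ih =>
    obtain ⟨q, hq⟩ := ih (by omega)
    have h1 := mul_v_of_mem (p := p) (j := k) (by rw [mem_Ico]; omega)
    have h2 := mul_v_of_mem (p := p) (j := k + 1) (by rw [mem_Ico]; omega)
    push_cast at h2
    rw [c_succ]
    refine ⟨q * (((k : ℤ_[p]) - p * t) * ((k : ℤ_[p]) + 1 + p * t) * v p (k + 1) ^ 2)
      + t ^ 3 * v p k ^ 2 * ((k : ℤ_[p]) + 1 + p * t) * v p (k + 1) ^ 2, ?_⟩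
    linear_combination (((k : ℤ_[p]) - p * t) * ((k : ℤ_[p]) + 1 + p * t) * v p (k + 1) ^ 2) * hq
      - p * t * (((k : ℤ_[p]) + 1 + p * t) * v p (k + 1) ^ 2) * (1 + p * t * v p k) * h1
      - p * t * v p (k + 1) * h2

theorem u_reflect (h2 : p ≠ 2) {k : ℕ} (hk : k < p) :
    (p : ℤ_[p]) ^ 2 ∣ u p k + u p (p - 1 - k) - if 2 * k + 1 = p then 2 else 0 := by
  unfold u
  by_cases h : 2 * k + 1 = p
  · rw [if_pos h, if_pos (by omega), if_pos h]
    exact ⟨0, by ring⟩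
  · rw [if_neg h, if_neg (by omega), if_neg h]
    have h3 := mul_v (p := p) (not_dvd hk h)
    have h4 := mul_v (p := p) (not_dvd (p := p) (k := p - 1 - k) (by omega) (by omega))
    have h5 : ((2 * k + 1 : ℕ) : ℤ_[p]) + ((2 * (p - 1 - k) + 1 : ℕ) : ℤ_[p]) = 2 * p := by
      have : 2 * k + 1 + (2 * (p - 1 - k) + 1) = 2 * p := by omega
      exact_mod_cast congrArg (fun n : ℕ => (n : ℤ_[p])) this
    set x := v p (2 * k + 1)
    set y := v p (2 * (p - 1 - k) + 1)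
    refine ⟨2 * x * y, ?_⟩
    linear_combination p * x * y * h5 - p * y * h3 - p * x * h4

theorem sum_u (h2 : p ≠ 2) : (p : ℤ_[p]) ^ 2 ∣ ∑ k ∈ range p, u p k - 1 := by
  have hpos := hp.out.pos
  have hodd := hp.out.eq_two_or_odd
  have h1 : (p : ℤ_[p]) ^ 2 ∣ ∑ k ∈ range p, (u p k + u p (p - 1 - k) - if 2 * k + 1 = p then 2 else 0) :=
    dvd_sum fun k hk => u_reflect h2 (mem_range.1 hk)
  rw [sum_sub_distrib, sum_add_distrib, sum_range_reflect (fun k => u p k) p] at h1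
  have h3 : ∑ k ∈ range p, (if 2 * k + 1 = p then (2 : ℤ_[p]) else 0) = 2 := by
    rw [sum_eq_single ((p - 1) / 2)]
    · rw [if_pos (by omega)]
    · intro b _ hb
      rw [if_neg (by omega)]
    · intro h
      exact absurd (mem_range.2 (by omega)) h
  rw [h3] at h1
  have h4 : (p : ℤ_[p]) ^ 2 ∣ 2 * (∑ k ∈ range p, u p k - 1) := by
    have e : 2 * (∑ k ∈ range p, u p k - 1) = ∑ k ∈ range p, u p k + ∑ k ∈ range p, u p k - 2 := by ring
    rw [e]
    exact h1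
  have h5 : IsUnit (2 : ℤ_[p]) := by
    have := isUnit_nat (p := p) (j := 2) (by
      intro h
      exact h2 ((Nat.prime_dvd_prime_iff_eq hp.out Nat.prime_two).1 h))
    exact_mod_cast this
  exact h5.dvd_mul_left.1 h4

theorem P_pt (h2 : p ≠ 2) (t : ℤ_[p]) :
    (p : ℤ_[p]) ^ 3 ∣ P p (p * t) - (p + 2 * p * t * (1 - p) - 4 * p ^ 2 * t ^ 2) := by
  have hpos := hp.out.pos
  have hodd := hp.out.eq_two_or_odd
  have h3 : 3 ≤ p := by
    have := hp.out.two_le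
    omega
  -- `U`
  obtain ⟨q, hq⟩ := sum_u h2
  obtain ⟨v1, hv1⟩ := dvd_V (p := p) (s := 1) (by
    intro h
    have := Nat.le_of_dvd one_pos h
    omega)
  -- the sum over `k ≥ 1`
  have h4 : (p : ℤ_[p]) ^ 3 ∣ ∑ k ∈ Ico 1 p, ((c p (p * t) k + p * t * (v p k + p * t * v p k ^ 2)) * u p k) :=
    dvd_sum fun k hk => by
      rw [mem_Ico] at hk
      exact (c_pt t hk.1 hk.2).mul_right _
  have h5 : ∀ k ∈ Ico 1 p, (c p (p * t) k + p * t * (v p k + p * t * v p k ^ 2)) * u p k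
      = c p (p * t) k * u p k + p * t * (p * v p k ^ 1 - 2 * u p k)
        + p ^ 2 * t ^ 2 * (p * v p k ^ 2 - 2 * p * v p k ^ 1 + 4 * u p k) := by
    intro k hk
    have h6 := mul_v_of_mem hk
    rw [mem_Ico] at hk
    have h7 := u_mul (p := p) hk.2
    linear_combination (p * t * v p k + p ^ 2 * t ^ 2 * v p k ^ 2 - 2 * p ^ 2 * t ^ 2 * v p k) * h7
      - (2 * p * t * u p k + p ^ 2 * t ^ 2 * (2 * v p k * u p k) - 4 * p ^ 2 * t ^ 2 * u p k) * h6
  rw [sum_congr rfl h5, sum_add_distrib, sum_add_distrib, ← mul_sum, ← mul_sum, sum_add_distrib,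
    sum_sub_distrib, sum_sub_distrib, ← mul_sum, ← mul_sum, ← mul_sum, ← mul_sum, ← mul_sum] at h4
  have h8 : P p (p * t) = p + ∑ k ∈ Ico 1 p, c p (p * t) k * u p k := by
    unfold P
    rw [range_eq_Ico, sum_eq_sum_Ico_succ_bot hpos]
    have h9 := u_mul (p := p) (k := 0) hpos
    congr 1
    simp only [c, range_zero, prod_empty]
    push_cast at h9
    linear_combination h9
  have h10 : ∑ k ∈ range p, u p k = p + ∑ k ∈ Ico 1 p, u p k := by
    rw [range_eq_Ico, sum_eq_sum_Ico_succ_bot hpos]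
    have h9 := u_mul (p := p) (k := 0) hpos
    congr 1
    push_cast at h9
    linear_combination h9
  obtain ⟨w, hw⟩ := h4
  have e1 : ∑ k ∈ Ico 1 p, v p k ^ 1 = p * v1 := hv1
  set U := ∑ k ∈ Ico 1 p, u p k
  set V2 := ∑ k ∈ Ico 1 p, v p k ^ 2
  rw [e1] at hw
  have hU : U = 1 - p + p ^ 2 * q := by linear_combination hq - h10
  rw [hU] at hw
  rw [h8]
  refine ⟨w - t * v1 + 2 * t * q - t ^ 2 * V2 + 2 * t ^ 2 * p * v1 + 4 * t ^ 2 - 4 * t ^ 2 * p * q, ?_⟩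
  linear_combination hw

theorem v_three (h3 : p ≠ 3) : 3 * v p 3 = 1 := by
  have := mul_v (p := p) (j := 3) (by
    intro h
    exact h3 ((Nat.prime_dvd_prime_iff_eq hp.out Nat.prime_three).1 h))
  exact_mod_cast this

/-- the main congruence -/
theorem P_third (h2 : p ≠ 2) (h3 : p ≠ 3) :
    (p : ℤ_[p]) ^ 3 ∣ P p (-v p 3) - p * (if p % 3 = 1 then 1 else -1) := by
  have hpos := hp.out.pos
  have hv := v_three (p := p) h3
  have key : ∀ (t : ℤ_[p]) (n : ℕ), n < p → p * t + n = -v p 3 →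
      (p : ℤ_[p]) ^ 3 ∣ P p (-v p 3) - 3 * p * (1 + 2 * t) := by
    intro t n hn h
    have h4 := path (p := p) h2 t hn
    rw [h] at h4
    obtain ⟨q, hq⟩ := h4
    obtain ⟨r, hr⟩ := P_pt (p := p) h2 t
    refine ⟨3 * q + 3 * (2 * (p * t) + 1) * r - 12 * t ^ 2 * (1 + 2 * t), ?_⟩
    linear_combination 3 * hq + 3 * (2 * (p * t) + 1) * hr + 2 * P p (-v p 3) * hv
  by_cases h : p % 3 = 1
  · rw [if_pos h]
    obtain ⟨n, hn⟩ : ∃ n, p = 3 * n + 1 := ⟨p / 3, by omega⟩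
    have hc : (p : ℤ_[p]) = 3 * n + 1 := by exact_mod_cast congrArg (fun n : ℕ => (n : ℤ_[p])) hn
    obtain ⟨q, hq⟩ := key (-v p 3) n (by omega) (by linear_combination (-v p 3) * hc - n * hv)
    exact ⟨q, by linear_combination hq - 2 * p * hv⟩
  · rw [if_neg h]
    have h5 : ¬ 3 ∣ p := by
      intro h6
      exact h3 ((Nat.prime_dvd_prime_iff_eq Nat.prime_three hp.out).1 h6).symm
    obtain ⟨n, hn⟩ : ∃ n, 2 * p = 3 * n + 1 := ⟨2 * p / 3, by omega⟩
    have hc : 2 * (p : ℤ_[p]) = 3 * n + 1 := by exact_mod_cast congrArg (fun n : ℕ => (n : ℤ_[p])) hn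
    obtain ⟨q, hq⟩ := key (-2 * v p 3) n (by omega) (by linear_combination (-v p 3) * hc - n * hv)
    exact ⟨q, by linear_combination hq - 4 * p * hv⟩

end Pool.Agent.Q33.Cat2
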